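import Pool.Agent.H14.GKK2

set_option autoImplicit false

namespace Pool.Agent.Results.MP_f9eabf_al.OrderFive

open Matrix Finset ComplexOrder

/-- Index sequences are strictly increasing maps `Fin k → Fin n`; the minor `A[f, g]`. -/
noncomputable def minor {n k : ℕ} (A : Matrix (Fin n) (Fin n) ℂ) (f g : Fin k → Fin n) : ℂ :=
  (A.submatrix f g).det

def PMatrix {n : ℕ} (A : Matrix (Fin n) (Fin n) ℂ) : Prop :=
  ∀ (k : ℕ) (f : Fin k → Fin n), StrictMono f → 0 < minor A f f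

/-- products of opposite almost principal minors are nonnegative -/
def WeaklySignSymm {n : ℕ} (A : Matrix (Fin n) (Fin n) ℂ) : Prop :=
  ∀ (k : ℕ) (f g : Fin k → Fin n), StrictMono f → StrictMono g →
    (image f univ ∩ image g univ).card + 1 = k → 0 ≤ minor A f g * minor A g f

/-- the least real eigenvalue (`⊤` if there is none) -/
noncomputable def ell {k : ℕ} (B : Matrix (Fin k) (Fin k) ℂ) : EReal :=
  sInf ((fun x : ℝ => (x : EReal)) '' {x : ℝ | (x : ℂ) ∈ spectrum ℂ B})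

def TauMatrix {n : ℕ} (A : Matrix (Fin n) (Fin n) ℂ) : Prop :=
  (∀ (k m : ℕ) (f : Fin k → Fin n) (g : Fin m → Fin n), StrictMono f → StrictMono g → 0 < m →
    Set.range g ⊆ Set.range f →
    ell (A.submatrix f f) ≤ ell (A.submatrix g g) ∧ ell (A.submatrix g g) < ⊤) ∧ 0 ≤ ell A

theorem result : ∃ A : Matrix (Fin 5) (Fin 5) ℂ, PMatrix A ∧ WeaklySignSymm A ∧ TauMatrix A ∧
    ∃ z ∈ spectrum ℂ A, z.re ≤ 0 :=
  ⟨Pool.Agent.H14.GKK.A, Pool.Agent.H14.GKK.pmat,
    fun k f g hf hg h => (Pool.Agent.H14.GKK.strict k f g hf hg h).le, Pool.Agent.H14.GKK.tau,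
    Pool.Agent.H14.GKK.unstable⟩

end Pool.Agent.Results.MP_f9eabf_al.OrderFive
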